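import Pool.Agent.Lib_MP_f31343_cx.MinMax

/-!
# MP_f31343_gt: the larger of two representations is cocompact (step 2 of board note 2693)
-/

set_option autoImplicit false

namespace Pool.Agent.Lib_MP_f31343_cx

open UpperHalfPlane Matrix

theorem step2 {Γ : Type*} [Group Γ] (ra rb : Γ →* SpecialLinearGroup (Fin 2) ℝ)
    (hfin : ∀ R : ℝ, {g : Γ | dist I (ra g • I) - dist I (rb g • I) ≤ R}.Finite)
    (c : ℝ) (hC : ∀ u : SpecialLinearGroup (Fin 2) ℝ, ∃ g : Γ,
      dist (u • (rb g • I)) (ra g • I) ≤ c) :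
    ∃ R0 : ℝ, ∀ y : ℍ, ∃ g : Γ, dist y (ra g • I) ≤ R0 := by
  classical
  set z : Γ → ℍ := fun g => ra g • I with hz
  set w : Γ → ℍ := fun g => rb g • I with hw
  have hzz : ∀ g h, dist (z g) (z h) = dist I (z (g⁻¹ * h)) := by
    intro g h
    have : z h = ra g • z (g⁻¹ * h) := by
      simp only [hz]
      rw [smul_smul, ← map_mul, mul_inv_cancel_left]
    rw [this]
    exact dist_smul (ra g) I (z (g⁻¹ * h))
  have hww : ∀ g h, dist (w g) (w h) = dist I (w (g⁻¹ * h)) := by
    intro g h
    have : w h = rb g • w (g⁻¹ * h) := by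
      simp only [hw]
      rw [smul_smul, ← map_mul, mul_inv_cancel_left]
    rw [this]
    exact dist_smul (rb g) I (w (g⁻¹ * h))
  have hc0 : 0 ≤ c := by
    obtain ⟨g, hg⟩ := hC 1
    exact dist_nonneg.trans hg
  have hlog : 0 ≤ Real.log 4 := Real.log_nonneg (by norm_num)
  -- a bound for the lengths in the exceptional set
  obtain ⟨Bm, hBm⟩ : ∃ Bm : ℝ, ∀ g, dist I (z g) - dist I (w g) ≤ 2 * c + Real.log 4 →
      dist I (w g) ≤ Bm := by
    obtain ⟨Bm, hBm⟩ := ((hfin (2 * c + Real.log 4)).image fun g => dist I (w g)).bddAbove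
    exact ⟨Bm, fun g hg => hBm ⟨g, hg, rfl⟩⟩
  -- a lower bound of the differences
  obtain ⟨m, hm0, hm⟩ : ∃ m : ℝ, 0 ≤ m ∧ ∀ g, -m ≤ dist I (z g) - dist I (w g) := by
    obtain ⟨B, hB⟩ := ((hfin 0).image fun g => dist I (z g) - dist I (w g)).bddBelow
    refine ⟨|B|, abs_nonneg _, fun g => ?_⟩
    rcases le_total (dist I (z g) - dist I (w g)) 0 with h | h
    · exact (neg_abs_le B).trans (hB ⟨g, h, rfl⟩)
    · exact (neg_nonpos.2 (abs_nonneg _)).trans h
  refine ⟨|Bm| + c + Real.log 4 + 1, fun y => ?_⟩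
  by_contra hcon
  push Not at hcon
  set D := dist y I with hD
  have hD0 : 0 ≤ D := dist_nonneg
  set T := 4 * D + m + 1 with hT
  let S : Finset Γ := (hfin T).toFinset
  have hS : ∀ g, g ∈ S ↔ dist I (z g) - dist I (w g) ≤ T := fun g => by
    simp only [S, Set.Finite.mem_toFinset]
    rfl
  have hz1 : z 1 = I := by simp [hz]
  have hw1 : w 1 = I := by simp [hw]
  have h1S : (1 : Γ) ∈ S := by
    rw [hS, hz1, hw1, sub_self]; positivity
  have hSne : S.Nonempty := ⟨1, h1S⟩
  let term : Γ → ℍ → ℝ := fun g p => dist p (w g) - dist y (z g)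
  have hterm : ∀ g p, term g p ≤ dist p I + D - (dist I (z g) - dist I (w g)) := by
    intro g p
    have e1 := dist_triangle p I (w g)
    have e2 := dist_triangle I y (z g)
    rw [dist_comm I y] at e2
    simp only [term]
    linarith
  let Φ : ℍ → ℝ := fun p => S.sup' hSne fun g => term g p
  have hcont : Continuous Φ := by
    refine Continuous.finset_sup'_apply hSne fun g _ => ?_
    exact (continuous_id.dist continuous_const).sub continuous_const
  have hΦI : Φ I ≤ D + m := by
    refine Finset.sup'_le hSne _ fun g _ => ?_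
    have := hterm g I
    rw [dist_self] at this
    have := hm g
    linarith
  obtain ⟨p, hp, hmin⟩ := (isCompact_closedBall (I : ℍ) (2 * D + m)).exists_isMinOn
    ⟨I, Metric.mem_closedBall_self (by positivity)⟩ hcont.continuousOn
  have hpI : dist p I ≤ 2 * D + m := hp
  have hglob : ∀ q, Φ p ≤ Φ q := by
    intro q
    by_cases hq : dist q I ≤ 2 * D + m
    · exact hmin hq
    · push Not at hq
      have e1 : term 1 q ≤ Φ q := Finset.le_sup' (fun g => term g q) h1S
      have e2 : term 1 q = dist q I - D := by simp only [term, hz1, hw1, hD]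
      have e3 : Φ p ≤ Φ I := hmin (Metric.mem_closedBall_self (by positivity))
      linarith
  have hM0 : -D ≤ Φ p := by
    have e1 : term 1 p ≤ Φ p := Finset.le_sup' (fun g => term g p) h1S
    have e2 : term 1 p = dist p I - D := by simp only [term, hz1, hw1, hD]
    have : 0 ≤ dist p I := dist_nonneg
    linarith
  have hall : ∀ g, term g p ≤ Φ p := by
    intro g
    by_cases hg : g ∈ S
    · exact Finset.le_sup' (fun g => term g p) hg
    · rw [hS] at hg
      push Not at hg
      have := hterm g p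
      linarith
  -- the minimum is at least `-c`
  have hMc : -c ≤ Φ p := by
    obtain ⟨u, hu⟩ := MulAction.exists_smul_eq (SpecialLinearGroup (Fin 2) ℝ) p y
    obtain ⟨g, hg⟩ := hC u
    have e1 : dist y (u • w g) = dist p (w g) := by
      rw [← hu]; exact dist_smul u p (w g)
    have e2 := dist_triangle y (u • w g) (z g)
    have e3 := hall g
    have e4 : dist (u • w g) (z g) ≤ c := hg
    simp only [term] at e3
    linarith
  obtain ⟨g, hg, h, hh, hag, hah, hb⟩ := minmax S w (fun g => dist y (z g)) (Φ p) p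
    (fun g _ => hall g)
    (fun q _ => by
      obtain ⟨g, hg, hgq⟩ := Finset.exists_mem_eq_sup' hSne fun g => term g q
      exact ⟨g, hg, (hglob q).trans (le_of_eq hgq)⟩)
  have e1 := dist_triangle (z g) y (z h)
  rw [dist_comm (z g) y, hzz] at e1
  rw [hww] at hb
  have e2 := hcon g
  have e3 := hcon h
  have e4 : |Bm| + c + Real.log 4 + 1 < dist y (z g) := e2
  have e5 : |Bm| + c + Real.log 4 + 1 < dist y (z h) := e3
  have e6 : dist I (z (g⁻¹ * h)) - dist I (w (g⁻¹ * h)) ≤ 2 * c + Real.log 4 := by linarith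
  have e7 := hBm _ e6
  have e8 := le_abs_self Bm
  have e9 := abs_nonneg Bm
  linarith

end Pool.Agent.Lib_MP_f31343_cx
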