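import Pool.Agent.Lib_MP_f31343_cx.MinMax

/-!
# MP_f31343_gt: growth (step 3 of board note 2693)
-/

set_option autoImplicit false

namespace Pool.Agent.Lib_MP_f31343_cx

open UpperHalfPlane Matrix

/-- `F` is a subset of the ball of radius `R` about `I` with all distances `> 2 R0`. -/
def Sep (R0 R : ℝ) (F : Finset ℍ) : Prop :=
  (∀ x ∈ F, dist x I ≤ R) ∧ ∀ x ∈ F, ∀ y ∈ F, x ≠ y → 2 * R0 < dist x y

/-- the largest number of points in the ball of radius `R` with all distances `> 2 R0` -/
noncomputable def Pk (R0 R : ℝ) : ℕ := sSup {n : ℕ | ∃ F : Finset ℍ, Sep R0 R F ∧ F.card = n}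

theorem sep_empty (R0 R : ℝ) : Sep R0 R ∅ := ⟨by simp, by simp⟩

/-- points on a horocycle -/
noncomputable def hp (l : ℝ) (j : ℕ) : ℍ := UpperHalfPlane.mk ⟨j * l, 1⟩ one_pos

theorem cosh_hp (l : ℝ) (i j : ℕ) :
    Real.cosh (dist (hp l i) (hp l j)) = 1 + (((i : ℝ) - j) * l) ^ 2 / 2 := by
  rw [cosh_dist']
  have h1 : (hp l i).re = i * l := rfl
  have h2 : (hp l j).re = j * l := rfl
  have h3 : (hp l i).im = 1 := rfl
  have h4 : (hp l j).im = 1 := rfl
  rw [h1, h2, h3, h4]
  ring

theorem hp_zero (l : ℝ) : hp l 0 = I := by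
  apply UpperHalfPlane.ext
  apply Complex.ext
  · change ((0 : ℕ) : ℝ) * l = (I : ℍ).re
    simp
  · change (1 : ℝ) = (I : ℍ).im
    simp

theorem sep_hp {R0 R l : ℝ} (hR0 : 0 ≤ R0) (hR : 0 ≤ R) (hl : 2 * Real.cosh (2 * R0) < l ^ 2)
    (n : ℕ) (hn : 1 + ((n : ℝ) * l) ^ 2 / 2 ≤ Real.cosh R) :
    ∃ F : Finset ℍ, Sep R0 R F ∧ F.card = n := by
  classical
  have hlt : ∀ i j : ℕ, i ≠ j → 2 * R0 < dist (hp l i) (hp l j) := by
    intro i j hij
    have h1 : Real.cosh (2 * R0) < Real.cosh (dist (hp l i) (hp l j)) := by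
      rw [cosh_hp]
      have h2 : (1 : ℝ) ≤ ((i : ℝ) - j) ^ 2 := by
        have h3 : (1 : ℤ) ≤ ((i : ℤ) - j) ^ 2 := by
          have h4 : ((i : ℤ) - j) ≠ 0 := by
            intro h; apply hij; omega
          have := sq_pos_of_ne_zero h4
          omega
        exact_mod_cast h3
      rw [mul_pow]
      nlinarith [Real.cosh_pos (2 * R0)]
    rw [Real.cosh_lt_cosh, abs_of_nonneg (by positivity), abs_of_nonneg dist_nonneg] at h1
    exact h1
  have hinj : Function.Injective (hp l) := by
    intro i j hij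
    by_contra hne
    have := hlt i j hne
    rw [hij, dist_self] at this
    linarith
  refine ⟨(Finset.range n).image (hp l), ⟨?_, ?_⟩, ?_⟩
  · intro x hx
    obtain ⟨j, hj, rfl⟩ := Finset.mem_image.1 hx
    have hjn : (j : ℝ) ≤ n := by exact_mod_cast (Finset.mem_range.1 hj).le
    have h1 : Real.cosh (dist (hp l j) I) ≤ Real.cosh R := by
      rw [← hp_zero l, cosh_hp, Nat.cast_zero, sub_zero]
      refine le_trans ?_ hn
      have h2 : ((j : ℝ) * l) ^ 2 ≤ ((n : ℝ) * l) ^ 2 := by
        rw [mul_pow, mul_pow]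
        refine mul_le_mul_of_nonneg_right ?_ (sq_nonneg _)
        have h3 : (0 : ℝ) ≤ j := Nat.cast_nonneg j
        nlinarith
      linarith
    rw [Real.cosh_le_cosh, abs_of_nonneg dist_nonneg, abs_of_nonneg hR] at h1
    exact h1
  · intro x hx y hy hxy
    obtain ⟨i, hi, rfl⟩ := Finset.mem_image.1 hx
    obtain ⟨j, hj, rfl⟩ := Finset.mem_image.1 hy
    exact hlt i j (fun h => hxy (by rw [h]))
  · rw [Finset.card_image_of_injective _ hinj, Finset.card_range]

theorem step3 {Γ : Type*} [Group Γ] (ra rb : Γ →* SpecialLinearGroup (Fin 2) ℝ)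
    (hfin : ∀ R : ℝ, {g : Γ | dist I (ra g • I) - dist I (rb g • I) ≤ R}.Finite)
    (hb : ∀ R : ℝ, {g : Γ | dist I (rb g • I) ≤ R}.Finite)
    (R0 : ℝ) (hR0 : ∀ y : ℍ, ∃ g : Γ, dist y (ra g • I) ≤ R0) : False := by
  classical
  set z : Γ → ℍ := fun g => ra g • I with hz
  set w : Γ → ℍ := fun g => rb g • I with hw
  have hR00 : 0 ≤ R0 := by
    obtain ⟨g, hg⟩ := hR0 I
    exact dist_nonneg.trans hg
  have hww : ∀ g h, dist (w g) (w h) = dist I (w (g⁻¹ * h)) := by
    intro g h
    have : w h = rb g • w (g⁻¹ * h) := by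
      simp only [hw]
      rw [smul_smul, ← map_mul, mul_inv_cancel_left]
    rw [this]
    exact dist_smul (rb g) I (w (g⁻¹ * h))
  have ha : ∀ R : ℝ, {g : Γ | dist I (z g) ≤ R}.Finite := by
    intro R
    refine (hfin R).subset fun g hg => ?_
    have h1 : dist I (z g) ≤ R := hg
    have h2 : 0 ≤ dist I (w g) := dist_nonneg
    change dist I (z g) - dist I (w g) ≤ R
    linarith
  -- Lemma A
  have hA : ∀ R F, Sep R0 R F → F.card ≤ (ha (R + R0)).toFinset.card := by
    intro R F hF
    choose f hf using hR0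
    refine Finset.card_le_card_of_injOn f (fun x hx => ?_) (fun x hx y hy hxy => ?_)
    · rw [Finset.mem_coe, Set.Finite.mem_toFinset]
      have h1 := hF.1 x hx
      have h2 := dist_triangle I x (z (f x))
      have h3 := hf x
      rw [dist_comm I x] at h2
      change dist I (z (f x)) ≤ R + R0
      exact h2.trans (add_le_add h1 h3)
    · by_contra hne
      have h1 := hF.2 x hx y hy hne
      have h2 := dist_triangle x (z (f x)) y
      have h3 := hf x
      have h4 := hf y
      rw [← hxy, dist_comm] at h4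
      have h3' : dist x (z (f x)) ≤ R0 := h3
      have h4' : dist (z (f x)) y ≤ R0 := h4
      linarith
  have hbdd : ∀ R, BddAbove {n : ℕ | ∃ F : Finset ℍ, Sep R0 R F ∧ F.card = n} := by
    intro R
    refine ⟨(ha (R + R0)).toFinset.card, ?_⟩
    rintro n ⟨F, hF, rfl⟩
    exact hA R F hF
  have hle : ∀ R F, Sep R0 R F → F.card ≤ Pk R0 R := fun R F hF =>
    le_csSup (hbdd R) ⟨F, hF, rfl⟩
  have hatt : ∀ R, ∃ F, Sep R0 R F ∧ F.card = Pk R0 R := by
    intro R
    have hne : ({n : ℕ | ∃ F : Finset ℍ, Sep R0 R F ∧ F.card = n}).Nonempty :=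
      ⟨0, ∅, sep_empty R0 R, rfl⟩
    exact Nat.sSup_mem hne (hbdd R)
  -- Lemma B
  set m := (hb (2 * R0)).toFinset.card with hm
  have hB : ∀ R, (hb R).toFinset.card ≤ m * Pk R0 R := by
    intro R
    let W : Finset ℍ := (hb R).toFinset.image w
    have hWsep : ((W.powerset).filter fun F => Sep R0 R F).Nonempty :=
      ⟨∅, by rw [Finset.mem_filter]; exact ⟨Finset.empty_mem_powerset _, sep_empty R0 R⟩⟩
    obtain ⟨F, hF, hmax⟩ := Finset.exists_max_image _ (fun F => F.card) hWsep
    rw [Finset.mem_filter, Finset.mem_powerset] at hF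
    have hcov : ∀ g ∈ (hb R).toFinset, ∃ x ∈ F, dist x (w g) ≤ 2 * R0 := by
      intro g hg
      by_contra hcon
      push Not at hcon
      have hgR : dist I (w g) ≤ R := by
        rw [Set.Finite.mem_toFinset] at hg
        exact hg
      have hnot : w g ∉ F := by
        intro h
        have := hcon _ h
        rw [dist_self] at this
        linarith
      have hins : insert (w g) F ∈ (W.powerset).filter fun F => Sep R0 R F := by
        rw [Finset.mem_filter, Finset.mem_powerset]
        refine ⟨Finset.insert_subset (Finset.mem_image_of_mem w hg) hF.1, ?_, ?_⟩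
        · intro x hx
          rcases Finset.mem_insert.1 hx with rfl | hx
          · rw [dist_comm]; exact hgR
          · exact hF.2.1 x hx
        · intro x hx y hy hxy
          rcases Finset.mem_insert.1 hx with rfl | hx <;> rcases Finset.mem_insert.1 hy with rfl | hy
          · exact absurd rfl hxy
          · rw [dist_comm]; exact hcon y hy
          · exact hcon x hx
          · exact hF.2.2 x hx y hy hxy
      have := hmax _ hins
      rw [Finset.card_insert_of_notMem hnot] at this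
      omega
    choose! f hf using hcov
    have h1 := Finset.card_le_mul_card_image_of_maps_to (s := (hb R).toFinset) (t := F) (f := f)
      (fun g hg => (hf g hg).1) m (fun x hx => by
        obtain ⟨g0, hg0, rfl⟩ := Finset.mem_image.1 (hF.1 hx)
        rw [hm]
        refine Finset.card_le_card_of_injOn (fun g => g0⁻¹ * g) (fun g hg => ?_)
          (fun g _ h _ hgh => mul_left_cancel hgh)
        have hg' := Finset.mem_filter.1 hg
        rw [Finset.mem_coe, Set.Finite.mem_toFinset]
        have h2 := (hf g hg'.1).2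
        rw [hg'.2, hww] at h2
        exact h2)
    calc (hb R).toFinset.card ≤ m * F.card := h1
      _ ≤ m * Pk R0 R := Nat.mul_le_mul_left m (hle R F hF.2)
  -- Lemma C and the recursion
  have hC : ∀ s : ℝ, ∃ C : ℕ, ∀ R, Pk R0 R ≤ m * Pk R0 (R - s) + C := by
    intro s
    refine ⟨(hfin (R0 + s)).toFinset.card, fun R => ?_⟩
    obtain ⟨F, hF, hFc⟩ := hatt R
    rw [← hFc]
    refine (hA R F hF).trans ?_
    have h1 : (ha (R + R0)).toFinset ⊆ (hb (R - s)).toFinset ∪ (hfin (R0 + s)).toFinset := by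
      intro g hg
      rw [Set.Finite.mem_toFinset] at hg
      rw [Finset.mem_union, Set.Finite.mem_toFinset, Set.Finite.mem_toFinset]
      have hg' : dist I (z g) ≤ R + R0 := hg
      rcases le_or_gt (dist I (z g) - dist I (w g)) (R0 + s) with h | h
      · exact Or.inr h
      · left
        change dist I (w g) ≤ R - s
        linarith
    exact (Finset.card_le_card h1).trans ((Finset.card_union_le _ _).trans
      (Nat.add_le_add_right (hB (R - s)) _))
  -- m is positive
  have hm1 : 1 ≤ m := by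
    rw [hm, Nat.one_le_iff_ne_zero, ← Nat.pos_iff_ne_zero, Finset.card_pos]
    refine ⟨1, ?_⟩
    rw [Set.Finite.mem_toFinset]
    change dist I (w 1) ≤ 2 * R0
    have : w 1 = I := by simp [hw]
    rw [this, dist_self]
    positivity
  -- the horocycle
  obtain ⟨l, hl⟩ := exists_nat_gt (2 * Real.cosh (2 * R0))
  have hl1 : 1 ≤ l := by
    have h1 : (1 : ℝ) ≤ Real.cosh (2 * R0) := Real.one_le_cosh _
    have h2 : (1 : ℝ) < l := by linarith
    have h3 : 1 < l := by exact_mod_cast h2
    omega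
  have hl2 : 2 * Real.cosh (2 * R0) < (l : ℝ) ^ 2 := by
    have h1 : (1 : ℝ) ≤ l := by exact_mod_cast hl1
    nlinarith
  set q : ℕ := 4 * l * m with hq
  have hq4 : 4 ≤ q := by
    rw [hq]
    have := Nat.mul_le_mul hl1 hm1
    nlinarith
  have hqR : (4 : ℝ) ≤ q := by exact_mod_cast hq4
  set s : ℝ := 2 * Real.log q with hs
  have hs0 : 0 ≤ s := by
    rw [hs]
    have := Real.log_nonneg (by linarith : (1 : ℝ) ≤ q)
    positivity
  obtain ⟨C, hCs⟩ := hC s
  have hlow : ∀ k : ℕ, 1 ≤ k → (2 * m) ^ k ≤ Pk R0 (k * s) := by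
    intro k hk
    obtain ⟨F, hF, hFc⟩ := sep_hp (R0 := R0) (R := k * s) (l := l) hR00
      (mul_nonneg (Nat.cast_nonneg k) hs0) hl2 ((2 * m) ^ k) (by
        have e1 : Real.exp (k * s) = (q : ℝ) ^ (2 * k) := by
          rw [hs]
          have : (k : ℝ) * (2 * Real.log q) = (2 * k : ℕ) * Real.log q := by push_cast; ring
          rw [this, Real.exp_nat_mul, Real.exp_log (by linarith)]
        have e2 : (q : ℝ) ^ (2 * k) / 2 ≤ Real.cosh (k * s) := by
          rw [Real.cosh_eq, e1]
          have := Real.exp_pos (-(k * s))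
          linarith
        refine le_trans ?_ e2
        have e3 : 2 * (((2 * m) ^ k : ℕ) : ℝ) * l ≤ (q : ℝ) ^ k := by
          have e4 : 2 * (2 * m) ^ k * l ≤ q ^ k := by
            have e5 : q = (2 * m) * (2 * l) := by rw [hq]; ring
            rw [e5, mul_pow (2 * m)]
            have e6 : 2 * l ≤ (2 * l) ^ k := Nat.le_self_pow (by omega) _
            calc 2 * (2 * m) ^ k * l = (2 * m) ^ k * (2 * l) := by ring
              _ ≤ _ := Nat.mul_le_mul_left _ e6
          exact_mod_cast e4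
        have e7 : (q : ℝ) ^ (2 * k) = ((q : ℝ) ^ k) ^ 2 := by rw [← pow_mul, mul_comm]
        rw [e7]
        have e8 : (0 : ℝ) ≤ (((2 * m) ^ k : ℕ) : ℝ) * l := by positivity
        have e9 : (4 : ℝ) ≤ (q : ℝ) ^ k := by
          calc (4 : ℝ) ≤ q := hqR
            _ = (q : ℝ) ^ 1 := (pow_one _).symm
            _ ≤ (q : ℝ) ^ k := pow_le_pow_right₀ (by linarith) hk
        nlinarith)
    rw [← hFc]
    exact hle _ F hF
  have hup : ∀ k : ℕ, Pk R0 (k * s) ≤ m ^ k * (Pk R0 0 + k * C) := by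
    intro k
    induction k with
    | zero => simp
    | succ k ih =>
      have h1 := hCs ((k + 1 : ℕ) * s)
      have h2 : ((k + 1 : ℕ) : ℝ) * s - s = k * s := by push_cast; ring
      rw [h2] at h1
      have h3 : 1 ≤ m ^ (k + 1) := Nat.one_le_pow _ _ hm1
      calc Pk R0 ((k + 1 : ℕ) * s) ≤ m * Pk R0 (k * s) + C := h1
        _ ≤ m * (m ^ k * (Pk R0 0 + k * C)) + m ^ (k + 1) * C :=
          Nat.add_le_add (Nat.mul_le_mul_left m ih) (Nat.le_mul_of_pos_left C h3)
        _ = m ^ (k + 1) * (Pk R0 0 + (k + 1 : ℕ) * C) := by ring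
  have hfinal : ∀ k : ℕ, 1 ≤ k → 2 ^ k ≤ Pk R0 0 + k * C := by
    intro k hk
    have h1 := (hlow k hk).trans (hup k)
    rw [mul_pow, mul_comm (2 ^ k)] at h1
    exact Nat.le_of_mul_le_mul_left h1 (Nat.pow_pos (by omega))
  -- contradiction
  obtain ⟨D, hD⟩ : ∃ D : ℕ, D = Pk R0 0 + C + 4 := ⟨_, rfl⟩
  have h1 := hfinal (2 * D) (by omega)
  have h2 : Pk R0 0 + 2 * D * C ≤ 2 * D * D := by
    rw [hD]; nlinarith [Nat.zero_le (Pk R0 0), Nat.zero_le C, Nat.zero_le (Pk R0 0 * C)]
  have h3 : 2 * D * D < 2 ^ (2 * D) := by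
    have h4 : ∀ n : ℕ, 4 ≤ n → 2 * n * n < 2 ^ (2 * n) := by
      intro n hn
      induction n, hn using Nat.le_induction with
      | base => norm_num
      | succ n hn ih =>
        have h5 : 2 ^ (2 * (n + 1)) = 4 * 2 ^ (2 * n) := by rw [mul_add, pow_add]; ring
        rw [h5]
        nlinarith
    exact h4 D (by omega)
  omega

end Pool.Agent.Lib_MP_f31343_cx
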