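import Mathlib

/-!
# MP_f31343_gt: the min-max point in the hyperbolic plane (step 2 of board note 2693)
-/

set_option autoImplicit false

namespace Pool.Agent.Lib_MP_f31343_cx

open UpperHalfPlane

/-- `cosh` of the distance in coordinates. -/
theorem cosh_dist' (z w : ℍ) : Real.cosh (dist z w) =
    ((z.re - w.re) ^ 2 + z.im ^ 2 + w.im ^ 2) / (2 * z.im * w.im) := by
  rw [UpperHalfPlane.cosh_dist, Complex.dist_eq, ← Complex.normSq_eq_norm_sq, Complex.normSq_apply]
  have hz := z.im_pos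
  have hw := w.im_pos
  simp only [Complex.sub_re, Complex.sub_im, UpperHalfPlane.coe_re, UpperHalfPlane.coe_im]
  field_simp
  ring

/-- the gradient of `cosh (dist · w)` at `I` -/
noncomputable def gx (w : ℍ) : ℝ := -w.re / w.im
noncomputable def gy (w : ℍ) : ℝ := (1 - w.re ^ 2 - w.im ^ 2) / (2 * w.im)

/-- law of cosines at `I` -/
theorem law_cos (w w' : ℍ) : Real.cosh (dist w w') =
    Real.cosh (dist I w) * Real.cosh (dist I w') - (gx w * gx w' + gy w * gy w') := by
  rw [cosh_dist', cosh_dist', cosh_dist', gx, gx, gy, gy]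
  have hw := w.im_pos
  have hw' := w'.im_pos
  simp only [UpperHalfPlane.I_re, UpperHalfPlane.I_im]
  field_simp
  ring

/-- an obtuse angle at `I` -/
theorem dist_ge_of_obtuse (w w' : ℍ) (h : gx w * gx w' + gy w * gy w' ≤ 0) :
    dist I w + dist I w' - Real.log 4 ≤ dist w w' := by
  have h1 := law_cos w w'
  have h2 : Real.cosh (dist I w) * Real.cosh (dist I w') ≤ Real.cosh (dist w w') := by linarith
  have h3 : Real.exp (dist I w) / 2 ≤ Real.cosh (dist I w) := by
    rw [Real.cosh_eq]; have := Real.exp_pos (-dist I w); linarith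
  have h4 : Real.exp (dist I w') / 2 ≤ Real.cosh (dist I w') := by
    rw [Real.cosh_eq]; have := Real.exp_pos (-dist I w'); linarith
  have h5 : Real.cosh (dist w w') ≤ Real.exp (dist w w') := by
    rw [Real.cosh_eq]
    have : Real.exp (-dist w w') ≤ Real.exp (dist w w') :=
      Real.exp_le_exp.2 (by linarith [dist_nonneg (x := w) (y := w')])
    linarith
  have h6 : Real.exp (dist I w) / 2 * (Real.exp (dist I w') / 2) ≤ Real.exp (dist w w') :=
    (mul_le_mul h3 h4 (by positivity) (by positivity)).trans (h2.trans h5)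
  have h7 : Real.exp (dist I w + dist I w' - Real.log 4) ≤ Real.exp (dist w w') := by
    rw [Real.exp_sub, Real.exp_add, Real.exp_log (by norm_num)]
    calc _ = Real.exp (dist I w) / 2 * (Real.exp (dist I w') / 2) := by ring
      _ ≤ _ := h6
  exact Real.exp_le_exp.1 h7

/-- the point near `I` in the direction `-(vx, vy)` -/
noncomputable def zz (vx vy t : ℝ) : ℍ :=
  UpperHalfPlane.mk ⟨-(t * vx), max (1 / 2) (1 - t * vy)⟩ (lt_max_of_lt_left (by norm_num))

theorem zz_re (vx vy t : ℝ) : (zz vx vy t).re = -(t * vx) := rfl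
theorem zz_im (vx vy t : ℝ) : (zz vx vy t).im = max (1 / 2) (1 - t * vy) := rfl

theorem zz_zero (vx vy : ℝ) : zz vx vy 0 = I := by
  apply UpperHalfPlane.ext
  apply Complex.ext
  · change -(0 * vx) = (I : ℍ).re
    simp
  · change max (1 / 2) (1 - 0 * vy) = (I : ℍ).im
    norm_num

open Filter Topology

theorem cosh_tendsto (vx vy : ℝ) (w : ℍ) :
    Tendsto (fun t => Real.cosh (dist (zz vx vy t) w)) (𝓝[>] 0) (𝓝 (Real.cosh (dist I w))) := by
  have h0 : Real.cosh (dist I w) = (fun t : ℝ => ((-(t * vx) - w.re) ^ 2 +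
      (max (1 / 2) (1 - t * vy)) ^ 2 + w.im ^ 2) / (2 * max (1 / 2) (1 - t * vy) * w.im)) 0 := by
    rw [← zz_zero vx vy, cosh_dist', zz_re, zz_im]
  rw [h0]
  have h1 : (fun t => Real.cosh (dist (zz vx vy t) w)) = fun t : ℝ => ((-(t * vx) - w.re) ^ 2 +
      (max (1 / 2) (1 - t * vy)) ^ 2 + w.im ^ 2) / (2 * max (1 / 2) (1 - t * vy) * w.im) := by
    funext t
    rw [cosh_dist', zz_re, zz_im]
  rw [h1]
  refine tendsto_nhdsWithin_of_tendsto_nhds (Continuous.tendsto ?_ 0)
  refine Continuous.div (by fun_prop) (by fun_prop) fun t => ?_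
  have h2 : 0 < max (1 / 2) (1 - t * vy) := lt_max_of_lt_left (by norm_num)
  have := w.im_pos
  positivity

theorem ev_lt (vx vy : ℝ) (w : ℍ) {b : ℝ} (hb : dist I w < b) :
    ∀ᶠ t in 𝓝[>] (0 : ℝ), dist (zz vx vy t) w < b := by
  have h1 : Real.cosh (dist I w) < Real.cosh b := by
    rw [Real.cosh_lt_cosh, abs_of_nonneg dist_nonneg, abs_of_nonneg (dist_nonneg.trans hb.le)]
    exact hb
  filter_upwards [(cosh_tendsto vx vy w).eventually (gt_mem_nhds h1)] with t ht
  rw [Real.cosh_lt_cosh, abs_of_nonneg dist_nonneg, abs_of_nonneg (dist_nonneg.trans hb.le)] at ht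
  exact ht

theorem ev_decrease (vx vy : ℝ) (w : ℍ) (hv : 0 < vx * gx w + vy * gy w) :
    ∀ᶠ t in 𝓝[>] (0 : ℝ), dist (zz vx vy t) w < dist I w := by
  have hw := w.im_pos
  have e1 : ∀ᶠ t in 𝓝[>] (0 : ℝ), 1 / 2 < 1 - t * vy := by
    refine nhdsWithin_le_nhds ?_
    have : Tendsto (fun t : ℝ => 1 - t * vy) (𝓝 0) (𝓝 (1 - 0 * vy)) :=
      Continuous.tendsto (by fun_prop) 0
    exact this.eventually (lt_mem_nhds (by norm_num))
  have e2 : ∀ᶠ t in 𝓝[>] (0 : ℝ), t * (vx ^ 2 + vy ^ 2) < 2 * w.im * (vx * gx w + vy * gy w) := by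
    refine nhdsWithin_le_nhds ?_
    have : Tendsto (fun t : ℝ => t * (vx ^ 2 + vy ^ 2)) (𝓝 0) (𝓝 (0 * (vx ^ 2 + vy ^ 2))) :=
      Continuous.tendsto (by fun_prop) 0
    refine this.eventually (gt_mem_nhds ?_)
    rw [zero_mul]; positivity
  filter_upwards [e1, e2, self_mem_nhdsWithin] with t h1 h2 h3
  have h3' : 0 < t := h3
  have hmax : max (1 / 2) (1 - t * vy) = 1 - t * vy := max_eq_right h1.le
  have h4 : Real.cosh (dist (zz vx vy t) w) < Real.cosh (dist I w) := by
    rw [cosh_dist', cosh_dist', zz_re, zz_im, hmax, UpperHalfPlane.I_re, UpperHalfPlane.I_im]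
    have h5 : 0 < 1 - t * vy := by linarith
    rw [div_lt_div_iff₀ (by positivity) (by positivity)]
    have hgx : 2 * w.im * gx w = -(2 * w.re) := by
      rw [gx]; field_simp
    have hgy : 2 * w.im * gy w = 1 - w.re ^ 2 - w.im ^ 2 := by
      rw [gy]; field_simp
    have h6 : t * (vx ^ 2 + vy ^ 2) < vx * (-(2 * w.re)) + vy * (1 - w.re ^ 2 - w.im ^ 2) := by
      rw [← hgx, ← hgy]
      calc _ < _ := h2
        _ = _ := by ring
    have h7 := mul_lt_mul_of_pos_left h6 h3'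
    have h8 := mul_lt_mul_of_pos_left h7 (by positivity : 0 < 2 * w.im)
    nlinarith
  rw [Real.cosh_lt_cosh, abs_of_nonneg dist_nonneg, abs_of_nonneg dist_nonneg] at h4
  exact h4

theorem minmax_I {ι : Type*} (S : Finset ι) (w : ι → ℍ) (a : ι → ℝ) (M : ℝ)
    (h1 : ∀ s ∈ S, dist I (w s) - a s ≤ M)
    (h2 : ∀ z : ℍ, dist z I ≤ 1 → ∃ s ∈ S, M ≤ dist z (w s) - a s) :
    ∃ s ∈ S, ∃ s' ∈ S, dist I (w s) - a s = M ∧ dist I (w s') - a s' = M ∧
      dist I (w s) + dist I (w s') - Real.log 4 ≤ dist (w s) (w s') := by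
  classical
  by_contra hcon
  push Not at hcon
  have hpos : ∀ s ∈ S, ∀ s' ∈ S, dist I (w s) - a s = M → dist I (w s') - a s' = M →
      0 < gx (w s) * gx (w s') + gy (w s) * gy (w s') := by
    intro s hs s' hs' ha ha'
    by_contra h
    push Not at h
    exact absurd (dist_ge_of_obtuse _ _ h) (not_le.2 (hcon s hs s' hs' ha ha'))
  let A := S.filter fun s => dist I (w s) - a s = M
  let vx := ∑ s ∈ A, gx (w s)
  let vy := ∑ s ∈ A, gy (w s)
  have hv : ∀ s ∈ A, 0 < vx * gx (w s) + vy * gy (w s) := by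
    intro s hs
    have e : vx * gx (w s) + vy * gy (w s) =
        ∑ s' ∈ A, (gx (w s') * gx (w s) + gy (w s') * gy (w s)) := by
      rw [Finset.sum_add_distrib, ← Finset.sum_mul, ← Finset.sum_mul]
    rw [e]
    refine Finset.sum_pos (fun s' hs' => ?_) ⟨s, hs⟩
    have hs1 := Finset.mem_filter.1 hs
    have hs2 := Finset.mem_filter.1 hs'
    exact hpos s' hs2.1 s hs1.1 hs2.2 hs1.2
  have hev : ∀ᶠ t in 𝓝[>] (0 : ℝ), ∀ s ∈ S, dist (zz vx vy t) (w s) - a s < M := by
    rw [Filter.eventually_all_finset]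
    intro s hs
    rcases (h1 s hs).eq_or_lt with h | h
    · filter_upwards [ev_decrease vx vy (w s) (hv s (Finset.mem_filter.2 ⟨hs, h⟩))] with t ht
      linarith
    · filter_upwards [ev_lt vx vy (w s) (b := M + a s) (by linarith)] with t ht
      linarith
  have hev2 : ∀ᶠ t in 𝓝[>] (0 : ℝ), dist (zz vx vy t) I < 1 :=
    ev_lt vx vy I (by rw [dist_self]; norm_num)
  obtain ⟨t, ht1, ht2⟩ := (hev.and hev2).exists
  obtain ⟨s, hs, hs2⟩ := h2 _ ht2.le
  exact absurd (ht1 s hs) (not_lt.2 hs2)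

/-- If `p` minimises locally the maximum of the functions `dist · (w s) - a s` (`s` in a finite
set), then two of the active ones are seen from `p` under an obtuse angle. -/
theorem minmax {ι : Type*} (S : Finset ι) (w : ι → ℍ) (a : ι → ℝ) (M : ℝ) (p : ℍ)
    (h1 : ∀ s ∈ S, dist p (w s) - a s ≤ M)
    (h2 : ∀ z : ℍ, dist z p ≤ 1 → ∃ s ∈ S, M ≤ dist z (w s) - a s) :
    ∃ s ∈ S, ∃ s' ∈ S, dist p (w s) - a s = M ∧ dist p (w s') - a s' = M ∧
      dist p (w s) + dist p (w s') - Real.log 4 ≤ dist (w s) (w s') := by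
  obtain ⟨g, hg⟩ := MulAction.exists_smul_eq (Matrix.SpecialLinearGroup (Fin 2) ℝ) p I
  have hd : ∀ u v : ℍ, dist (g • u) (g • v) = dist u v := fun u v => dist_smul g u v
  have hI : ∀ v : ℍ, dist I (g • v) = dist p v := fun v => by rw [← hg, hd]
  obtain ⟨s, hs, s', hs', ha, ha', hb⟩ := minmax_I S (fun s => g • w s) a M
    (fun s hs => by rw [hI]; exact h1 s hs)
    (fun z hz => by
      obtain ⟨s, hs, h⟩ := h2 (g⁻¹ • z) (by
        rw [← hd, smul_inv_smul, hg]; exact hz)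
      refine ⟨s, hs, ?_⟩
      rw [← hd, smul_inv_smul] at h
      exact h)
  rw [hI] at ha ha'
  rw [hI, hI, hd] at hb
  exact ⟨s, hs, s', hs', ha, ha', hb⟩

end Pool.Agent.Lib_MP_f31343_cx
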